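import Pool.Agent.Helper65.OH.Goals

/-!
# Packet GEO: geometry of the grid
-/

namespace Pool.Agent.Helper65.OH

open Pool.Agent.Helper65.LinSpace Pool.Agent.Helper78.Mpc Pool.Agent.Helper28.Ram Finset

theorem cq_lt (m : Prm) (q k : ℕ) : m.cq q k < 2 ^ m.κ := dig_lt (by positivity) _ _

theorem co_lt {D κ : ℕ} {z : Fin D → ℤ} (h : InBox κ z) (k : ℕ) : co κ z k < 2 ^ κ := by
  unfold co
  split_ifs with hk
  · have h1 := (h ⟨k, hk⟩).2
    have h2 : (0 : ℤ) < 2 ^ κ := by positivity
    have h3 : ((2 ^ κ : ℕ) : ℤ) = 2 ^ κ := by push_cast; rfl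
    have h4 := (h ⟨k, hk⟩).1
    zify
    rw [Int.toNat_of_nonneg h4]
    exact h1
  · positivity

theorem div_lt {u o d N : ℕ} (hu : u < N) (ho : o < d) : (u + o) / d < N := by
  have hd : 0 < d := by omega
  rw [Nat.div_lt_iff_lt_mul hd]
  have h1 : (u + 1) * d ≤ N * d := Nat.mul_le_mul_right _ hu
  have h2 : u + d ≤ (u + 1) * d := by nlinarith
  omega

theorem tab_inj {q D : ℕ} {f g : ℕ → ℕ} (hf : ∀ i < D, f i < q) (hg : ∀ i < D, g i < q)
    (h : tab q D f = tab q D g) : ∀ i < D, f i = g i := by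
  intro i hi
  rw [← dig_tab hf hi, ← dig_tab hg hi, h]

theorem GEO : GEO_stmt where
  blk := by
    intro D m C q hD hG
    subst hD
    have e : ∀ k < m.D, m.cq q k = co m.κ C.h k := by
      intro k hk
      unfold co
      rw [dif_pos hk]
      have h1 := hG.cq ⟨k, hk⟩
      have h2 : m.cq q k = m.cq q ((⟨k, hk⟩ : Fin m.D) : ℕ) := rfl
      omega
    refine ⟨?_, ?_, ?_⟩
    · unfold Prm.blk bz
      exact tab_congr fun k hk => by rw [e k hk]
    · unfold Prm.cel cz
      exact tab_congr fun k hk => by rw [e k hk]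
    · intro k
      have h1 := hG.cq k
      have h2 := cq_lt m q k
      have h3 : ((2 ^ m.κ : ℕ) : ℤ) = 2 ^ m.κ := by push_cast; rfl
      rw [← h1]
      constructor
      · positivity
      · rw [← h3]
        exact_mod_cast h2
  code := by
    intro m u c hu hc
    have ht : tab (2 ^ m.κ) m.D c < (2 ^ m.κ) ^ m.D := tab_lt hc
    have e1 : m.mk' u c / 2 ^ (m.S + 1) = tab (2 ^ m.κ) m.D c := by
      unfold Prm.mk'
      rw [Nat.add_mul_div_left _ _ (by positivity), Nat.div_eq_of_lt hu, zero_add]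
    refine ⟨?_, ?_, ?_⟩
    · unfold Prm.mk' Prm.sg
      rw [pow_add 2 (m.S + 1) (m.κ * m.D), pow_mul]
      calc u + 2 ^ (m.S + 1) * tab (2 ^ m.κ) m.D c
          < 2 ^ (m.S + 1) + 2 ^ (m.S + 1) * tab (2 ^ m.κ) m.D c := by omega
        _ = 2 ^ (m.S + 1) * (tab (2 ^ m.κ) m.D c + 1) := by ring
        _ ≤ _ := Nat.mul_le_mul_left _ ht
    · unfold Prm.wq Prm.mk'
      rw [Nat.add_mul_mod_self_left, Nat.mod_eq_of_lt hu]
    · intro k hk
      unfold Prm.cq
      rw [e1]
      exact dig_tab hc hk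
  cq_lt := cq_lt
  cel_lt := by
    intro m q hd
    unfold Prm.cel
    exact tab_lt fun i _ => Nat.mod_lt _ hd
  inj := by
    intro D m z z' ho hz hz' hb hc
    have hd : 0 < m.d := by omega
    have h1 := tab_inj (fun i _ => div_lt (co_lt hz i) ho) (fun i _ => div_lt (co_lt hz' i) ho) hb
    have h2 := tab_inj (fun i _ => Nat.mod_lt _ hd) (fun i _ => Nat.mod_lt _ hd) hc
    funext k
    have h3 := h1 k k.2
    have h4 := h2 k k.2
    have h5 : co m.κ z k + m.o = co m.κ z' k + m.o := by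
      rw [← Nat.div_add_mod (co m.κ z k + m.o) m.d, ← Nat.div_add_mod (co m.κ z' k + m.o) m.d, h3,
        h4]
    have h6 : co m.κ z k = co m.κ z' k := by omega
    unfold co at h6
    rw [dif_pos k.2, dif_pos k.2] at h6
    have h7 := (hz k).1
    have h8 := (hz' k).1
    simp only [Fin.eta] at h6
    omega
  cross := by
    intro D m z z' ho hz hz'
    constructor
    · intro h
      by_contra hn
      push Not at hn
      exact h (tab_congr hn)
    · rintro ⟨k, hk, hne⟩ h
      exact hne (tab_inj (fun i _ => div_lt (co_lt hz i) ho) (fun i _ => div_lt (co_lt hz' i) ho)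
        h k hk)

end Pool.Agent.Helper65.OH
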