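import Pool.Agent.Helper28.Ram.Defs

/-!
# Turing machines with one head on a tape of dimension `D`: definitions
-/

namespace Pool.Agent.Helper65.OH

open Pool.Agent.Helper65.LinSpace Pool.Agent.Helper78.Mpc Pool.Agent.Helper28.Ram

/-- The word for a letter which may be missing. -/
def letW (o : Option Bool) : List Bool := [o.isSome, o == some true]

/-- The displacement of the head in the direction `k`, which the machine writes into its state: the
letters number `2 k + 1` and `2 k + 2` of the state (the first letter has the number `0`) mean `+ 1`
and `- 1`. -/
def mv (q : List Bool) (k : ℕ) : ℤ :=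
  (if q[2 * k + 1]? = some true then 1 else 0) - (if q[2 * k + 2]? = some true then 1 else 0)

/-- A machine with one head on the `D`-dimensional tape `ℤ^D`. Its state and the contents of the
cells are words. In one step the machine in the state `q`, with its head on a cell with the content
`v`, reads the letters `a` and `b` of the input word and of the guessed word whose index is written in
binary as `addr q`; its new state is `next (⟨q⟩ a b v)`, the new content of the cell is
`write (⟨q⟩ a b v)`, and the head moves by the displacement written in the new state; here `⟨q⟩` is the
self-delimiting code of `q`. The functions `addr`, `next` and `write` are computed in linear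
space. -/
structure OneHead (D : ℕ) where
  start : List Bool
  addr : List Bool → List Bool
  next : List Bool → List Bool
  write : List Bool → List Bool
  addr_lin : LinComp addr
  next_lin : LinComp next
  write_lin : LinComp write

/-- A configuration: the state, the position of the head and the contents of the cells. -/
structure Conf (D : ℕ) where
  q : List Bool
  h : Fin D → ℤ
  M : (Fin D → ℤ) → List Bool

variable {D : ℕ}

/-- The word which the functions `next` and `write` get. -/
def OneHead.inp (A : OneHead D) (w y : List Bool) (q v : List Bool) : List Bool :=
  sd q ++ (letW w[bval (A.addr q)]? ++ (letW y[bval (A.addr q)]? ++ v))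

/-- One step on the input word `w` and the guessed word `y`. -/
def OneHead.step (A : OneHead D) (w y : List Bool) (c : Conf D) : Conf D where
  q := A.next (A.inp w y c.q (c.M c.h))
  h k := c.h k + mv (A.next (A.inp w y c.q (c.M c.h))) k
  M := Function.update c.M c.h (A.write (A.inp w y c.q (c.M c.h)))

/-- The configuration after `t` steps. At the start all cells contain the empty word. -/
def OneHead.conf (A : OneHead D) (w y : List Bool) : ℕ → Conf D
  | 0 => ⟨A.start, fun _ => 0, fun _ => []⟩
  | t + 1 => A.step w y (A.conf w y t)

/-- Up to the time `r`, the state, the address and the contents of all cells are words of length at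
most `s`. -/
def OneHead.Fits (A : OneHead D) (w y : List Bool) (r s : ℕ) : Prop :=
  ∀ t ≤ r, (A.conf w y t).q.length ≤ s ∧ (A.addr (A.conf w y t).q).length ≤ s ∧
    ∀ z, ((A.conf w y t).M z).length ≤ s

/-- The first letter of the state after `r` steps is `1`. -/
def OneHead.AcceptsAt (A : OneHead D) (w y : List Bool) (r : ℕ) : Prop :=
  (A.conf w y r).q.head? = some true

/-- `A` accepts the language `L` with at most `g n` guessed bits and with a running time `r` and
words of length `s` such that `r * s ^ (1 + 1 / D) ≤ P n` and `s ≤ Q n`, `n` being the length of the
input word `w`: `w` is in `L` if and only if for some guess `y` the machine accepts at some time, and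
for `w` in `L` this happens within the stated bounds for some `y`. -/
def OneHead.Accepts (A : OneHead D) (L : Set (List Bool)) (g P Q : ℕ → ℝ) : Prop :=
  (∀ w y r, A.AcceptsAt w y r → w ∈ L) ∧
  ∀ w ∈ L, ∃ (y : List Bool) (r s : ℕ), (y.length : ℝ) ≤ g w.length ∧
    (r : ℝ) * (s : ℝ) ^ (1 + 1 / (D : ℝ)) ≤ P w.length ∧ (s : ℝ) ≤ Q w.length ∧
    A.Fits w y r s ∧ A.AcceptsAt w y r

end Pool.Agent.Helper65.OH
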