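import Pool.Agent.Helper65.OH.Defs
import Pool.Agent.Helper28.Ram.Mach

/-!
# The machine on numbers of a machine with one head

Words of length at most `S` are coded by their numbers; `0` means a failure (a word was too long, or
the head has left the box). The position of the head has the coordinates
`h k + 2 ^ (κ - 1) < 2 ^ κ`. The tape is divided into cubes of side `d`, shifted by `o`. A state `q`
codes the state of the machine and the position of the head; one step of the machine on numbers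
executes up to `Tc` steps of the machine, as long as the head stays in the cube; the content of a cube
is coded by a number with the digits of the cells to the base `2 ^ (S + 1)`.
-/

namespace Pool.Agent.Helper65.OH

open Pool.Agent.Helper65.LinSpace Pool.Agent.Helper78.Mpc Pool.Agent.Helper28.Ram Finset

/-- The parameters. -/
structure Prm where
  eA : ℕ
  eN : ℕ
  eW : ℕ
  st : ℕ
  Λ : ℕ
  β : ℕ
  B : ℕ
  x : ℕ
  y : ℕ
  S : ℕ
  κ : ℕ
  D : ℕ
  d : ℕ
  o : ℕ
  Tc : ℕ
  σ : ℕ
  a : ℕ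

namespace Prm

variable (m : Prm)

/-- The state of the machine. -/
def wq (q : ℕ) : ℕ := q % 2 ^ (m.S + 1)

/-- The coordinate `k` of the head. -/
def cq (q k : ℕ) : ℕ := dig (2 ^ m.κ) (q / 2 ^ (m.S + 1)) k

/-- The code of a state and a position. -/
def mk' (u : ℕ) (c : ℕ → ℕ) : ℕ := u + 2 ^ (m.S + 1) * tab (2 ^ m.κ) m.D c

/-- The number of the cube in which the head is. -/
def blk (q : ℕ) : ℕ := tab (2 ^ m.κ) m.D fun k => (m.cq q k + m.o) / m.d

/-- The number of the cell in the cube. -/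
def cel (q : ℕ) : ℕ := tab m.d m.D fun k => (m.cq q k + m.o) % m.d

/-- The number of the address, `0` if it is too long. -/
def adN (q : ℕ) : ℕ := capN m.S (fnN m.eA m.S m.Λ m.β m.B (m.wq q))

/-- The address. -/
def adr (q : ℕ) : ℕ := m.adN q - 2 ^ Nat.log 2 (m.adN q)

/-- The number of the word `letW`. -/
def lw (c : ℕ) : ℕ := ifz c 4 (ifz (c - 1) 5 7)

/-- The content of the cell on which the head is. -/
def vq (q v : ℕ) : ℕ := dig (2 ^ (m.S + 1)) v (m.cel q)

/-- The number of the word which the functions get. -/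
def inpN (q v : ℕ) : ℕ :=
  catN (sdN (m.wq q)) (catN (lw (letN m.x (m.adr q))) (catN (lw (letN m.y (m.adr q))) (m.vq q v)))

/-- The new state. -/
def nu (q v : ℕ) : ℕ := capN m.S (fnN m.eN m.S m.Λ m.β m.B (m.inpN q v))

/-- The new content. -/
def nw (q v : ℕ) : ℕ := capN m.S (fnN m.eW m.S m.Λ m.β m.B (m.inpN q v))

/-- The letter for `+ 1`. -/
def pl (u k : ℕ) : ℕ := eq01 (letN u (2 * k + 1)) 2

/-- The letter for `- 1`. -/
def mi (u k : ℕ) : ℕ := eq01 (letN u (2 * k + 2)) 2

/-- The number of the coordinates in which the head leaves the box. -/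
def viol (q u : ℕ) : ℕ :=
  ∑ k ∈ range m.D, (1 - le01 (mi u k) (m.cq q k + pl u k) *
    lt01 (m.cq q k + pl u k - mi u k) (2 ^ m.κ))

/-- Nonzero if the step is possible. -/
def ok (q v : ℕ) : ℕ :=
  m.adN q * (m.vq q v * (m.nu q v * (m.nw q v * eq01 (m.viol q (m.nu q v)) 0)))

/-- The code of the new state and the new position. -/
def sq (q v : ℕ) : ℕ :=
  ifz (accN (m.wq q))
    (ifz (m.ok q v) (m.mk' 0 (m.cq q))
      (m.mk' (m.nu q v) fun k => m.cq q k + pl (m.nu q v) k - mi (m.nu q v) k)) q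

/-- The new content of the cube. -/
def sv (q v : ℕ) : ℕ :=
  ifz (accN (m.wq q) + eq01 (m.ok q v) 0)
    (tab (2 ^ (m.S + 1)) (m.d ^ m.D) fun c =>
      ifz (eq01 c (m.cel q)) (dig (2 ^ (m.S + 1)) v c) (m.nw q v)) v

/-- The number of bits of the codes of the states. -/
def sg : ℕ := m.S + 1 + m.κ * m.D

/-- One step as long as the head is in the cube `b`; `z` codes state and content. -/
def loc (b z : ℕ) : ℕ :=
  ifz (eq01 (m.blk (z % 2 ^ m.sg)) b) z
    (m.sq (z % 2 ^ m.sg) (z / 2 ^ m.sg) + 2 ^ m.sg * m.sv (z % 2 ^ m.sg) (z / 2 ^ m.sg))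

/-- The code of state and content at the end of the step of the machine on numbers. -/
def run (q v : ℕ) : ℕ :=
  nrec (q % 2 ^ m.sg + 2 ^ m.sg * v) (fun _ z => m.loc (m.blk (q % 2 ^ m.sg)) z) m.Tc

/-- The address. -/
def fA (q : ℕ) : ℕ := m.blk q % 2 ^ m.σ

/-- The new state. -/
def fN (q v : ℕ) : ℕ := m.run q v % 2 ^ m.sg % 2 ^ m.σ

/-- The new content. -/
def fW (q v : ℕ) : ℕ := m.run q v / 2 ^ m.sg % 2 ^ m.a

/-- The start state. -/
def q0 : ℕ := m.mk' (capN m.S m.st) (fun _ => 2 ^ (m.κ - 1)) % 2 ^ m.σ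

/-- The contents of the cubes at the start. -/
def M0 : ℕ := tab (2 ^ (m.S + 1)) (m.d ^ m.D) (fun _ => 1) % 2 ^ m.a

/-- The configuration after `t` steps. -/
def conf (t : ℕ) : ℕ × (ℕ → ℕ) := cf m.fA m.fN m.fW m.q0 (fun _ => m.M0) t

end Prm

/-! ### The parameters of the simulation -/

/-- The bits of a coordinate. -/
def kap (n : ℕ) : ℕ := 4 * ll n + 6

/-- The dimension, which is limited for small `n`. -/
def dm (n D : ℕ) : ℕ := min D (ll n)

/-- The length of the words, which is limited. -/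
def sS (n S : ℕ) : ℕ := min S (gR n - 1)

/-- The largest side `d` of a cube with `(S + 1) * d ^ D ≤ (gR n) ^ 2`. -/
def sd' (n S D : ℕ) : ℕ := ∑ j ∈ range (gR n * gR n), le01 ((S + 1) * (j + 1) ^ D) (gR n * gR n)

/-- All parameters; `D` is the dimension; the shift is reduced modulo the side. -/
def prm (eA eN eW st x y S D o : ℕ) : Prm where
  eA := eA
  eN := eN
  eW := eW
  st := st
  Λ := LW (Nat.log 2 x)
  β := 2 ^ (2 * ll (Nat.log 2 x))
  B := CR x
  x := x
  y := y
  S := sS (Nat.log 2 x) S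
  κ := kap (Nat.log 2 x)
  D := dm (Nat.log 2 x) D
  d := sd' (Nat.log 2 x) (sS (Nat.log 2 x) S) (dm (Nat.log 2 x) D)
  o := o % sd' (Nat.log 2 x) (sS (Nat.log 2 x) S) (dm (Nat.log 2 x) D)
  Tc := (Nat.log 2 x + 2) ^ 4
  σ := min (sS (Nat.log 2 x) S + kap (Nat.log 2 x) * dm (Nat.log 2 x) D)
    (gR (Nat.log 2 x) - 1) + 1
  a := gR (Nat.log 2 x) * gR (Nat.log 2 x)

end Pool.Agent.Helper65.OH
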