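import Pool.Agent.Helper65.OH.Goals
import Pool.Agent.Helper78.Tok.Sim
import Pool.Agent.Helper28.Gen.Main

/-!
# Machines with one head on a tape of dimension `D` are weaker than linear space
-/

namespace Pool.Agent.Helper65.OH

open Pool.Agent.Helper65.LinSpace Pool.Agent.Helper78.Mpc Pool.Agent.Helper28.Ram Finset Filter
open Pool.Agent.Helper78.Tok (pR_prime JT ls_simT simT_eq CT gR_pos ls_gR)

variable {α : Type} [Ctx α]

/-- The token machine of the parameters. -/
def Prm.tok (m : Prm) : Pool.Agent.Helper78.Tok.Mach where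
  σ := m.σ
  a := m.a
  b := gR (Nat.log 2 m.x) / m.σ
  G := gR (Nat.log 2 m.x)
  A := m.fA
  N := m.fN
  W := m.fW
  q0 := m.q0
  M0 := fun _ => m.M0

theorem tok_conf (m : Prm) (t : ℕ) : m.tok.conf t = m.conf t := rfl

/-- The parts of the proof. -/
structure Parts : Prop where
  CROSS : CROSS_stmt
  MCOR : MCOR_stmt
  OKS : OKS_stmt
  MLS : MLS_stmt
  PAR : PAR_stmt
  PAR5 : PAR5_stmt

section

variable (eA eN eW st x y S D o : ℕ)

theorem par_tok : Pool.Agent.Helper78.Tok.Par (Nat.log 2 x) (prm eA eN eW st x y S D o).tok := by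
  refine ⟨?_, rfl, rfl, ?_⟩
  · have hg := gR_pos (Nat.log 2 x)
    show min (sS (Nat.log 2 x) S + kap (Nat.log 2 x) * dm (Nat.log 2 x) D)
      (gR (Nat.log 2 x) - 1) + 1 ≤ gR (Nat.log 2 x)
    omega
  · exact le_rfl

theorem ok_tok (H : OKS_stmt) : (prm eA eN eW st x y S D o).tok.Ok := by
  have h := H.1 (prm eA eN eW st x y S D o)
  refine ⟨Nat.succ_pos _, ?_, fun q => (h q 0).1, fun q v => (h q v).2.1,
    fun q v => (h q v).2.2.1, (h 0 0).2.2.2.1, fun _ => (h 0 0).2.2.2.2⟩
  have h1 := (par_tok eA eN eW st x y S D o).hσ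
  exact Nat.div_pos h1 (Nat.succ_pos _)

end

/-- The token machines of the simulation form a family computed in linear space. -/
theorem lsm_tok (P : Pool.Agent.Helper78.Tok.Parts) (H : OKS_stmt) (HM : MLS_stmt)
    {eA eN eW st x y S D o : α → ℕ} (heA : LS eA) (heN : LS eN) (heW : LS eW) (hst : LS st)
    (hx : LS x) (hy : LS y) (hS : LS S) (hD : LS D) (ho : LS o) :
    Pool.Agent.Helper78.Tok.LSM (fun z =>
      (prm (eA z) (eN z) (eW z) (st z) (x z) (y z) (S z) (D z) (o z)).tok) (fun z => CT (x z)) := by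
  obtain ⟨h1, h2, h3, h4, h5, h6, h7, h8⟩ := HM heA heN heW hst hx hy hS hD ho
  have hg : LS (fun z => gR (Nat.log 2 (x z))) := ls_gR (by fun_prop)
  refine ⟨h1, ?_, ?_, hg, h4, h5, h6, h7, ?_, ?_, ?_, ?_⟩
  · exact LS.mul hg hg
  · exact LS.div hg h1
  · exact LS.comp (f := fun z : α × ℕ => z.1) h8 (by fun_prop)
  · unfold CT
    exact (LS.add hx (LS.const 2)).pow_const 20000
  · intro z
    exact ok_tok _ _ _ _ _ _ _ _ _ H
  · intro z
    exact Pool.Agent.Helper78.Tok.nv_le P (ok_tok _ _ _ _ _ _ _ _ _ H)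
      (par_tok _ _ _ _ _ _ _ _ _)

theorem ls_ll {n : α → ℕ} (hn : LS n) : LS (fun z => ll (n z)) := by
  unfold ll
  fun_prop

/-- The number `eq01 σ sg` is computed in linear space. -/
theorem ls_eq {x S D : α → ℕ} (hx : LS x) (hS : LS S) (hD : LS D) :
    LS (fun z => eq01 (min (sS (Nat.log 2 (x z)) (S z) + kap (Nat.log 2 (x z)) *
      dm (Nat.log 2 (x z)) (D z)) (gR (Nat.log 2 (x z)) - 1) + 1)
      (sS (Nat.log 2 (x z)) (S z) + 1 + kap (Nat.log 2 (x z)) * dm (Nat.log 2 (x z)) (D z))) := by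
  have hn : LS (fun z => Nat.log 2 (x z)) := by fun_prop
  have hg : LS (fun z => gR (Nat.log 2 (x z))) := ls_gR hn
  have hl : LS (fun z => ll (Nat.log 2 (x z))) := ls_ll hn
  unfold sS kap dm
  fun_prop

/-- The simulation: `1` if the machine with the code `e` accepts, with the length of the words and
the shift coded by `T`. -/
noncomputable def acc (e x y T : ℕ) : ℕ :=
  eq01 (min (sS (Nat.log 2 x) (T / (gR (Nat.log 2 x) * gR (Nat.log 2 x))) + kap (Nat.log 2 x) *
      dm (Nat.log 2 x) (Nat.unpair e).1) (gR (Nat.log 2 x) - 1) + 1)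
      (sS (Nat.log 2 x) (T / (gR (Nat.log 2 x) * gR (Nat.log 2 x))) + 1 + kap (Nat.log 2 x) *
        dm (Nat.log 2 x) (Nat.unpair e).1) *
  accN ((prm (Nat.unpair (Nat.unpair e).2).1
      (Nat.unpair (Nat.unpair (Nat.unpair e).2).2).1
      (Nat.unpair (Nat.unpair (Nat.unpair (Nat.unpair e).2).2).2).1
      (Nat.unpair (Nat.unpair (Nat.unpair (Nat.unpair e).2).2).2).2 x y
      (T / (gR (Nat.log 2 x) * gR (Nat.log 2 x))) (Nat.unpair e).1
      (T % (gR (Nat.log 2 x) * gR (Nat.log 2 x)))).wq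
    ((prm (Nat.unpair (Nat.unpair e).2).1
      (Nat.unpair (Nat.unpair (Nat.unpair e).2).2).1
      (Nat.unpair (Nat.unpair (Nat.unpair (Nat.unpair e).2).2).2).1
      (Nat.unpair (Nat.unpair (Nat.unpair (Nat.unpair e).2).2).2).2 x y
      (T / (gR (Nat.log 2 x) * gR (Nat.log 2 x))) (Nat.unpair e).1
      (T % (gR (Nat.log 2 x) * gR (Nat.log 2 x)))).tok.sim (pR (Nat.log 2 x))
        (JT (Nat.log 2 x)) (gR (Nat.log 2 x))))

/-- The number of codes of parameters. -/
def NT (x : ℕ) : ℕ := gR (Nat.log 2 x) * (gR (Nat.log 2 x) * gR (Nat.log 2 x))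

theorem LS.NT : LS OH.NT := by
  unfold OH.NT
  have h : LS (fun x => gR (Nat.log 2 x)) := ls_gR (by fun_prop)
  exact LS.mul h (LS.mul h h)

theorem LS.acc (P : Pool.Agent.Helper78.Tok.Parts) (H : Parts) :
    LS (fun z : ℕ × ℕ × ℕ × ℕ => acc z.1 z.2.1 z.2.2.1 z.2.2.2) := by
  have hx : LS (fun z : ℕ × ℕ × ℕ × ℕ => z.2.1) := by fun_prop
  have hy : LS (fun z : ℕ × ℕ × ℕ × ℕ => z.2.2.1) := by fun_prop
  have hn : LS (fun z : ℕ × ℕ × ℕ × ℕ => Nat.log 2 z.2.1) := by fun_prop
  have hg : LS (fun z : ℕ × ℕ × ℕ × ℕ => gR (Nat.log 2 z.2.1)) := ls_gR hn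
  have hgg := LS.mul hg hg
  have hT : LS (fun z : ℕ × ℕ × ℕ × ℕ => z.2.2.2) := by fun_prop
  have hS := LS.div hT hgg
  have ho := LS.mod hT hgg
  have h0 : LS (fun z : ℕ × ℕ × ℕ × ℕ => (Nat.unpair z.1).1) := by fun_prop
  have h1 : LS (fun z : ℕ × ℕ × ℕ × ℕ => (Nat.unpair (Nat.unpair z.1).2).1) := by fun_prop
  have h2 : LS (fun z : ℕ × ℕ × ℕ × ℕ =>
      (Nat.unpair (Nat.unpair (Nat.unpair z.1).2).2).1) := by fun_prop
  have h3 : LS (fun z : ℕ × ℕ × ℕ × ℕ =>
      (Nat.unpair (Nat.unpair (Nat.unpair (Nat.unpair z.1).2).2).2).1) := by fun_prop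
  have h4 : LS (fun z : ℕ × ℕ × ℕ × ℕ =>
      (Nat.unpair (Nat.unpair (Nat.unpair (Nat.unpair z.1).2).2).2).2) := by fun_prop
  have hwq := (H.MLS h1 h2 h3 h4 hx hy hS h0 ho).2.2.1
  have hsim := ls_simT P hx (lsm_tok P H.OKS H.MLS h1 h2 h3 h4 hx hy hS h0 ho) fun z =>
    par_tok _ _ _ _ _ _ _ _ _
  unfold OH.acc
  refine LS.mul (ls_eq hx hS h0) ?_
  have hacc : ∀ {v : ℕ × ℕ × ℕ × ℕ → ℕ}, LS v → LS (fun a => accN (v a)) := by
    intro v hv
    unfold accN
    fun_prop
  refine hacc ?_
  exact LS.comp (f := fun z : ℕ × ℕ × ℕ × ℕ => (z, _)) hwq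
    (LS.prodMk LS.id hsim)

/-! ### The parameters are right for long words -/

/-- The parameters of the theorem are those of `Par`. -/
theorem par_prm (H : Parts) {D : ℕ} (A : OneHead D) (hD : 0 < D) {eA eN eW c : ℕ}
    {w y : List Bool} {S o : ℕ} (hS : S < gR w.length) (hl : D ≤ ll w.length)
    (h5 : ∀ S < gR w.length, c * (4 * S + 8) ≤ LW w.length ∧
      c + LW w.length + 4 * S + 8 ≤ 2 ^ (2 * ll w.length) ∧
      ∀ x, Nat.log 2 x = w.length → 2 ^ (S + 1) ≤ CR x)
    (hσ : (prm eA eN eW (num A.start) (num w) (num y) S D o).σ =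
      (prm eA eN eW (num A.start) (num w) (num y) S D o).sg) :
    Par A eA eN eW c w y (prm eA eN eW (num A.start) (num w) (num y) S D o) ∧
      (prm eA eN eW (num A.start) (num w) (num y) S D o).o <
        (prm eA eN eW (num A.start) (num w) (num y) S D o).d := by
  have hlog : Nat.log 2 (num w) = w.length := Pool.Agent.Helper65.LinSpace.log_num w
  have e1 : sS w.length S = S := min_eq_left (by omega)
  have e2 : dm w.length D = D := min_eq_left hl
  obtain ⟨h1, h2, -⟩ := H.OKS.2 w.length S D hD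
  rw [e1] at h1 h2
  obtain ⟨h6, h7, h8⟩ := h5 S hS
  have hd : (prm eA eN eW (num A.start) (num w) (num y) S D o).d = sd' w.length S D := by
    show sd' (Nat.log 2 (num w)) (sS (Nat.log 2 (num w)) S) (dm (Nat.log 2 (num w)) D) = _
    rw [hlog, e1, e2]
  have hS' : (prm eA eN eW (num A.start) (num w) (num y) S D o).S = S := by
    show sS (Nat.log 2 (num w)) S = _
    rw [hlog, e1]
  have ha : (prm eA eN eW (num A.start) (num w) (num y) S D o).a = gR w.length * gR w.length := by
    show gR (Nat.log 2 (num w)) * gR (Nat.log 2 (num w)) = _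
    rw [hlog]
  have hpos : 0 < (prm eA eN eW (num A.start) (num w) (num y) S D o).d := by
    rw [hd]
    exact h1
  refine ⟨⟨rfl, rfl, rfl, rfl, rfl, rfl, ?_, hD, ?_, hpos, hσ, ?_, ?_, ?_, ?_⟩, ?_⟩
  · show dm (Nat.log 2 (num w)) D = D
    rw [hlog, e2]
  · show 0 < 4 * ll _ + 6
    omega
  · rw [hd, hS', ha]
    exact h2
  · show c * (4 * (prm eA eN eW (num A.start) (num w) (num y) S D o).S + 8) ≤
      LW (Nat.log 2 (num w))
    rw [hS', hlog]
    exact h6
  · show c + LW (Nat.log 2 (num w)) +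
      4 * (prm eA eN eW (num A.start) (num w) (num y) S D o).S + 8 ≤
      2 ^ (2 * ll (Nat.log 2 (num w)))
    rw [hS', hlog]
    exact h7
  · show 2 ^ ((prm eA eN eW (num A.start) (num w) (num y) S D o).S + 1) ≤ CR (num w)
    rw [hS']
    exact h8 _ hlog
  · show o % sd' (Nat.log 2 (num w)) (sS (Nat.log 2 (num w)) S) (dm (Nat.log 2 (num w)) D) < _
    exact Nat.mod_lt _ hpos

/-- The coordinates of the head change by at most one in a step. -/
theorem co_step {D : ℕ} (A : OneHead D) (w y : List Bool) (κ t k : ℕ) :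
    co κ (A.conf w y (t + 1)).h k ≤ co κ (A.conf w y t).h k + 1 ∧
      co κ (A.conf w y t).h k ≤ co κ (A.conf w y (t + 1)).h k + 1 := by
  unfold co
  by_cases hk : k < D
  · rw [dif_pos hk, dif_pos hk]
    have h1 : (A.conf w y (t + 1)).h ⟨k, hk⟩ = (A.conf w y t).h ⟨k, hk⟩ +
      mv (A.next (A.inp w y (A.conf w y t).q ((A.conf w y t).M (A.conf w y t).h))) k := rfl
    have h2 : ∀ q, -1 ≤ mv q k ∧ mv q k ≤ 1 := by
      intro q
      unfold mv
      split_ifs <;> norm_num
    have h3 := h2 (A.next (A.inp w y (A.conf w y t).q ((A.conf w y t).M (A.conf w y t).h)))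
    rw [h1]
    omega
  · rw [dif_neg hk, dif_neg hk]
    omega

/-- An accepting state is not the empty word. -/
theorem one_le_of_accepts {D : ℕ} {A : OneHead D} {w y : List Bool} {r s : ℕ}
    (hf : A.Fits w y r s) (ha : A.AcceptsAt w y r) : 1 ≤ s := by
  have h1 := (hf r le_rfl).1
  unfold OneHead.AcceptsAt at ha
  rcases hq : (A.conf w y r).q with _ | ⟨b, q⟩
  · rw [hq] at ha
    simp at ha
  · rw [hq] at h1
    simp only [List.length_cons] at h1
    omega

/-- The machine accepts within the bounds of the theorem. -/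
def GoodB {D : ℕ} (A : OneHead D) (C : ℝ) (w y : List Bool) : Prop :=
  ∃ (r s : ℕ), (r : ℝ) * (s : ℝ) ^ (1 + 1 / (D : ℝ)) ≤
      C * ((w.length : ℝ) + 1) ^ ((3 : ℝ) / 2 + 1 / (D : ℝ)) /
        ((Nat.log 2 w.length : ℝ) + 1) ^ 4 ∧
    (s : ℝ) ≤ C * ((w.length : ℝ) + 1) ^ ((1 : ℝ) / 2) / ((Nat.log 2 w.length : ℝ) + 1) ∧
    A.Fits w y r s ∧ A.AcceptsAt w y r

/-- Every machine has a code. -/
theorem exists_good (P : Pool.Agent.Helper78.Tok.Parts) (H : Parts) {D : ℕ} (hD : 0 < D)
    (A : OneHead D) (C : ℝ) : ∃ e n₀ : ℕ, ∀ w y : List Bool, n₀ ≤ w.length →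
    (∀ T < NT (num w), acc e (num w) (num y) T ≠ 0 → ∃ r, A.AcceptsAt w y r) ∧
    (GoodB A C w y → ∃ T < NT (num w), acc e (num w) (num y) T ≠ 0) := by
  obtain ⟨eA, eN, eW, c, hA⟩ := H.MCOR A
  obtain ⟨n₀, hn₀⟩ := eventually_atTop.1 (H.PAR5.1 c D)
  obtain ⟨n₁, hn₁⟩ := eventually_atTop.1 (H.PAR D C hD)
  refine ⟨Nat.pair D (Nat.pair eA (Nat.pair eN (Nat.pair eW (num A.start)))), n₀ + n₁,
    fun w y hw => ?_⟩
  have hlog : Nat.log 2 (num w) = w.length := Pool.Agent.Helper65.LinSpace.log_num w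
  obtain ⟨hl, h5⟩ := hn₀ w.length (by omega)
  have hg : 0 < gR w.length := gR_pos _
  have e2 : dm w.length D = D := min_eq_left hl
  have hNT : NT (num w) = gR w.length * (gR w.length * gR w.length) := by
    unfold NT
    rw [hlog]
  -- the value of the simulation
  have key : ∀ S o : ℕ, (prm eA eN eW (num A.start) (num w) (num y) S D o).tok.sim
      (pR w.length) (JT w.length) (gR w.length) =
        ((prm eA eN eW (num A.start) (num w) (num y) S D o).conf
          (gR w.length * (gR w.length * (gR w.length /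
            (prm eA eN eW (num A.start) (num w) (num y) S D o).σ)))).1 := by
    intro S o
    have h := simT_eq P (ok_tok eA eN eW (num A.start) (num w) (num y) S D o H.OKS)
      (par_tok eA eN eW (num A.start) (num w) (num y) S D o)
    rw [hlog] at h
    rw [h]
    rfl
  have hacc : ∀ T, acc (Nat.pair D (Nat.pair eA (Nat.pair eN (Nat.pair eW (num A.start)))))
      (num w) (num y) T = eq01
        (prm eA eN eW (num A.start) (num w) (num y) (T / (gR w.length * gR w.length)) D
          (T % (gR w.length * gR w.length))).σ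
        (prm eA eN eW (num A.start) (num w) (num y) (T / (gR w.length * gR w.length)) D
          (T % (gR w.length * gR w.length))).sg *
      accN ((prm eA eN eW (num A.start) (num w) (num y) (T / (gR w.length * gR w.length)) D
          (T % (gR w.length * gR w.length))).wq
        ((prm eA eN eW (num A.start) (num w) (num y) (T / (gR w.length * gR w.length)) D
          (T % (gR w.length * gR w.length))).conf (gR w.length * (gR w.length * (gR w.length /
            (prm eA eN eW (num A.start) (num w) (num y) (T / (gR w.length * gR w.length)) D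
              (T % (gR w.length * gR w.length))).σ)))).1) := by
    intro T
    rw [← key]
    unfold acc Prm.sg
    simp only [Nat.unpair_pair, hlog]
    rw [show (prm eA eN eW (num A.start) (num w) (num y) (T / (gR w.length * gR w.length)) D
          (T % (gR w.length * gR w.length))).σ = min (sS (Nat.log 2 (num w))
            (T / (gR w.length * gR w.length)) + kap (Nat.log 2 (num w)) *
            dm (Nat.log 2 (num w)) D) (gR (Nat.log 2 (num w)) - 1) + 1 from rfl,
      show (prm eA eN eW (num A.start) (num w) (num y) (T / (gR w.length * gR w.length)) D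
          (T % (gR w.length * gR w.length))).S = sS (Nat.log 2 (num w))
            (T / (gR w.length * gR w.length)) from rfl,
      show (prm eA eN eW (num A.start) (num w) (num y) (T / (gR w.length * gR w.length)) D
          (T % (gR w.length * gR w.length))).κ = kap (Nat.log 2 (num w)) from rfl,
      show (prm eA eN eW (num A.start) (num w) (num y) (T / (gR w.length * gR w.length)) D
          (T % (gR w.length * gR w.length))).D = dm (Nat.log 2 (num w)) D from rfl, hlog]
  have hle : ∀ v, accN v = 0 ∨ accN v = 1 := by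
    intro v
    unfold accN lt01
    rcases Nat.mod_two_eq_zero_or_one v with h | h <;> rw [h] <;> split_ifs <;> simp
  constructor
  · intro T hT hne
    rw [hNT] at hT
    have hS : T / (gR w.length * gR w.length) < gR w.length := by
      rw [Nat.div_lt_iff_lt_mul (Nat.mul_pos hg hg)]
      exact hT
    rw [hacc] at hne
    have hσ : (prm eA eN eW (num A.start) (num w) (num y) (T / (gR w.length * gR w.length)) D
          (T % (gR w.length * gR w.length))).σ =
        (prm eA eN eW (num A.start) (num w) (num y) (T / (gR w.length * gR w.length)) D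
          (T % (gR w.length * gR w.length))).sg := by
      by_contra h
      apply hne
      rw [eq01, if_neg h, zero_mul]
    obtain ⟨hP, ho⟩ := par_prm H A hD (eA := eA) (eN := eN) (eW := eW) (c := c) (w := w) (y := y)
      (o := T % (gR w.length * gR w.length)) hS hl h5 hσ
    refine (hA w y _ hP ho).1 (gR w.length * (gR w.length * (gR w.length /
            (prm eA eN eW (num A.start) (num w) (num y) (T / (gR w.length * gR w.length)) D
              (T % (gR w.length * gR w.length))).σ))) ?_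
    rcases hle ((prm eA eN eW (num A.start) (num w) (num y) (T / (gR w.length * gR w.length)) D
          (T % (gR w.length * gR w.length))).wq
        ((prm eA eN eW (num A.start) (num w) (num y) (T / (gR w.length * gR w.length)) D
          (T % (gR w.length * gR w.length))).conf (gR w.length * (gR w.length * (gR w.length /
            (prm eA eN eW (num A.start) (num w) (num y) (T / (gR w.length * gR w.length)) D
              (T % (gR w.length * gR w.length))).σ)))).1) with h | h
    · exact absurd (by rw [h, mul_zero]) hne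
    · exact h
  · rintro ⟨r, s, hr, hs, hfit, hacc'⟩
    obtain ⟨h3, h4, h6⟩ := hn₁ w.length (by omega) r s (one_le_of_accepts hfit hacc') hr hs
    have hsg : s < gR w.length := by omega
    have e1 : sS w.length s = s := min_eq_left (by omega)
    obtain ⟨hd1, hd2, -⟩ := H.OKS.2 w.length s D hD
    rw [e1] at hd1 hd2
    have hdg : sd' w.length s D ≤ gR w.length * gR w.length := by
      unfold sd'
      refine (sum_le_sum (g := fun _ => 1) fun j _ => ?_).trans ?_
      · unfold le01
        split_ifs <;> norm_num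
      · simp
    -- the shift
    obtain ⟨o, ho, hc⟩ := H.CROSS D r (sd' w.length s D)
      (fun t k => co (kap w.length) (A.conf w y t).h k) hd1 (fun t _ k _ => co_step A w y _ t k)
    have hdiv : (s * (gR w.length * gR w.length) + o) / (gR w.length * gR w.length) = s := by
      rw [mul_comm, Nat.mul_add_div (Nat.mul_pos hg hg), Nat.div_eq_of_lt (by omega), add_zero]
    have hmod : (s * (gR w.length * gR w.length) + o) % (gR w.length * gR w.length) = o := by
      rw [mul_comm, Nat.mul_add_mod, Nat.mod_eq_of_lt (by omega)]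
    refine ⟨s * (gR w.length * gR w.length) + o, ?_, ?_⟩
    · rw [hNT]
      calc s * (gR w.length * gR w.length) + o < s * (gR w.length * gR w.length) +
            gR w.length * gR w.length := by omega
        _ = (s + 1) * (gR w.length * gR w.length) := by ring
        _ ≤ _ := Nat.mul_le_mul_right _ hsg
    · rw [hacc, hdiv, hmod]
      have e3 : (prm eA eN eW (num A.start) (num w) (num y) s D o).σ =
          s + kap w.length * D + 1 := by
        show min (sS (Nat.log 2 (num w)) s + kap (Nat.log 2 (num w)) *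
            dm (Nat.log 2 (num w)) D) (gR (Nat.log 2 (num w)) - 1) + 1 = _
        rw [hlog, e1, e2, min_eq_left (by omega)]
      have hσ : (prm eA eN eW (num A.start) (num w) (num y) s D o).σ =
          (prm eA eN eW (num A.start) (num w) (num y) s D o).sg := by
        rw [e3]
        show _ = sS (Nat.log 2 (num w)) s + 1 + kap (Nat.log 2 (num w)) *
          dm (Nat.log 2 (num w)) D
        rw [hlog, e1, e2]
        ring
      obtain ⟨hP, ho'⟩ := par_prm H A hD (eA := eA) (eN := eN) (eW := eW) (c := c) (w := w)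
        (y := y) (o := o) hsg hl h5 hσ
      have e4 : (prm eA eN eW (num A.start) (num w) (num y) s D o).S = s := by
        show sS (Nat.log 2 (num w)) s = _
        rw [hlog, e1]
      have e5 : (prm eA eN eW (num A.start) (num w) (num y) s D o).κ = kap w.length := by
        show kap (Nat.log 2 (num w)) = _
        rw [hlog]
      have e6 : (prm eA eN eW (num A.start) (num w) (num y) s D o).d = sd' w.length s D := by
        show sd' (Nat.log 2 (num w)) (sS (Nat.log 2 (num w)) s) (dm (Nat.log 2 (num w)) D) = _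
        rw [hlog, e1, e2]
      have e7 : (prm eA eN eW (num A.start) (num w) (num y) s D o).o = o := by
        show o % sd' (Nat.log 2 (num w)) (sS (Nat.log 2 (num w)) s)
          (dm (Nat.log 2 (num w)) D) = _
        rw [hlog, e1, e2, Nat.mod_eq_of_lt ho]
      have e8 : (prm eA eN eW (num A.start) (num w) (num y) s D o).Tc = (w.length + 2) ^ 4 := by
        show (Nat.log 2 (num w) + 2) ^ 4 = _
        rw [hlog]
      rw [(hA w y _ hP ho').2 r _ ?_ hacc' ?_ ?_ ?_, eq01, if_pos hσ]
      · norm_num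
      · rw [e4]
        exact hfit
      · rw [e8]
        exact h4
      · rw [e5]
        exact lt_of_le_of_lt h4 (H.PAR5.2 _)
      · rw [e3, e5, e6, e7]
        refine lt_of_mul_lt_mul_left (lt_of_le_of_lt hc h6) (Nat.zero_le _)

/-- **Average-case hardness for machines with one head on a tape of any dimension.** -/
theorem oh_main (P : Pool.Agent.Helper78.Tok.Parts) (H : Parts) (c : ℕ) :
    ∃ (L : Set (List Bool)) (s : ℕ → List Bool), DLINSPACE L ∧
      (∀ n, (s n).length = n) ∧
      (∀ w, w ∈ L ↔ Odd ((List.zipWith and (s w.length) w).count true)) ∧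
      ∀ (D : ℕ), 0 < D → ∀ (A : OneHead D) (C : ℝ), ∃ c' : ℝ, ∀ (n : ℕ) (α : List Bool), ∀ M,
        M = L ∨ M = Lᶜ →
        ({w : List Bool | w.length = n ∧
          (∀ v r, A.AcceptsAt w (α ++ v) r → w ∈ M) ∧
          (w ∈ M → ∃ (v : List Bool) (r t : ℕ), v.length ≤ c * n ∧
            (r : ℝ) * (t : ℝ) ^ (1 + 1 / (D : ℝ)) ≤
              C * ((n : ℝ) + 1) ^ ((3 : ℝ) / 2 + 1 / (D : ℝ)) / ((Nat.log 2 n : ℝ) + 1) ^ 4 ∧
            (t : ℝ) ≤ C * ((n : ℝ) + 1) ^ ((1 : ℝ) / 2) / ((Nat.log 2 n : ℝ) + 1) ∧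
            A.Fits w (α ++ v) r t ∧ A.AcceptsAt w (α ++ v) r)}.ncard : ℝ) ≤
          2 ^ n / 2 + c' * ((min α.length (n - α.length) : ℕ) + 1) *
            2 ^ (((n : ℝ) + α.length) / 2) := by
  obtain ⟨L, s, h1, h2, h3, h4⟩ := Pool.Agent.Helper28.Gen.avg_main acc NT (LS.acc P H) LS.NT c
  refine ⟨L, s, h1, h2, h3, fun D hD A C => ?_⟩
  obtain ⟨c', hc'⟩ := h4 (fun w y => ∃ r, A.AcceptsAt w y r) (GoodB A C)
    (exists_good P H hD A C)
  refine ⟨c', fun n α M hM => ?_⟩
  refine le_trans ?_ (hc' n α M hM)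
  have hfin : ({w : List Bool | w.length = n ∧
      (∀ v, (∃ r, A.AcceptsAt w (α ++ v) r) → w ∈ M) ∧
      (w ∈ M → ∃ v : List Bool, v.length ≤ c * n ∧ GoodB A C w (α ++ v))}).Finite :=
    (List.finite_length_eq Bool n).subset fun w hw => hw.1
  refine Nat.cast_le.2 (Set.ncard_le_ncard ?_ hfin)
  rintro w ⟨hw, hw1, hw2⟩
  refine ⟨hw, fun v ⟨r, hr⟩ => hw1 v r hr, fun h => ?_⟩
  obtain ⟨v, r, t, hv, hr, ht, hfit, hacc⟩ := hw2 h
  subst hw
  exact ⟨v, hv, r, t, hr, ht, hfit, hacc⟩

/-- Languages accepted by fast machines with one head are in linear space. -/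
theorem oh_lin (P : Pool.Agent.Helper78.Tok.Parts) (H : Parts) (c : ℕ) {D : ℕ} (hD : 0 < D)
    (A : OneHead D) (L : Set (List Bool)) (C : ℝ) (h1 : ∀ w y r, A.AcceptsAt w y r → w ∈ L)
    (h2 : ∀ w ∈ L, ∃ (y : List Bool) (r t : ℕ), y.length ≤ c * w.length ∧
      (r : ℝ) * (t : ℝ) ^ (1 + 1 / (D : ℝ)) ≤
        C * ((w.length : ℝ) + 1) ^ ((3 : ℝ) / 2 + 1 / (D : ℝ)) /
          ((Nat.log 2 w.length : ℝ) + 1) ^ 4 ∧
      (t : ℝ) ≤ C * ((w.length : ℝ) + 1) ^ ((1 : ℝ) / 2) / ((Nat.log 2 w.length : ℝ) + 1) ∧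
      A.Fits w y r t ∧ A.AcceptsAt w y r) : DLINSPACE L := by
  refine Pool.Agent.Helper28.Gen.lin_main acc NT (LS.acc P H) LS.NT c L
    (fun w y => ∃ r, A.AcceptsAt w y r) (GoodB A C) (exists_good P H hD A C)
    (fun w y ⟨r, hr⟩ => h1 w y r hr) fun w hw => ?_
  obtain ⟨y, r, t, hy, hr, ht, hfit, hacc⟩ := h2 w hw
  exact ⟨y, hy, r, t, hr, ht, hfit, hacc⟩

end Pool.Agent.Helper65.OH
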