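import Pool.Agent.Helper65.OH.Num

/-!
# Machines with one head: the statements of the parts
-/

namespace Pool.Agent.Helper65.OH

open Pool.Agent.Helper65.LinSpace Pool.Agent.Helper78.Mpc Pool.Agent.Helper28.Ram Finset Filter

/-- CROSS. Shift of a grid. `p t k` is the coordinate `k` at the time `t`. For each `t < r` and `k < D`
there is at most one shift `o < d` such that `(p t k + o) / d ≠ (p (t + 1) k + o) / d`: the two numbers
are equal or differ by `1`, and `(u + o) / d ≠ (u + 1 + o) / d` if and only if `d ∣ u + 1 + o`. So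
the sum over `o < d` of the cardinalities is at most `D * r` (exchange the sums), and the smallest of
the `d` terms is at most `D * r / d`. -/
def CROSS_stmt : Prop := ∀ (D r d : ℕ) (p : ℕ → ℕ → ℕ), 0 < d →
    (∀ t < r, ∀ k < D, p (t + 1) k ≤ p t k + 1 ∧ p t k ≤ p (t + 1) k + 1) →
    ∃ o < d, d * ((range r).filter fun t => ∃ k < D, (p t k + o) / d ≠ (p (t + 1) k + o) / d).card ≤
      D * r

/-- `m` has the parameters of the machine `A` with the codes `eA`, `eN`, `eW`. -/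
structure Par {D : ℕ} (A : OneHead D) (eA eN eW c : ℕ) (w y : List Bool) (m : Prm) : Prop where
  h_eA : m.eA = eA
  h_eN : m.eN = eN
  h_eW : m.eW = eW
  h_st : m.st = num A.start
  h_x : m.x = num w
  h_y : m.y = num y
  h_D : m.D = D
  pos_D : 0 < D
  pos_κ : 0 < m.κ
  pos_d : 0 < m.d
  h_σ : m.σ = m.sg
  h_a : (m.S + 1) * m.d ^ D ≤ m.a
  h_Λ : c * (4 * m.S + 8) ≤ m.Λ
  h_β : c + m.Λ + 4 * m.S + 8 ≤ m.β
  h_B : 2 ^ (m.S + 1) ≤ m.B

/-- The cells of the box. -/
def InBox {D : ℕ} (κ : ℕ) (z : Fin D → ℤ) : Prop :=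
  ∀ k, 0 ≤ z k + 2 ^ (κ - 1) ∧ z k + 2 ^ (κ - 1) < 2 ^ κ

/-- The coordinate `k` of the cell `z`, shifted. -/
def co {D : ℕ} (κ : ℕ) (z : Fin D → ℤ) (k : ℕ) : ℕ :=
  if h : k < D then (z ⟨k, h⟩ + 2 ^ (κ - 1)).toNat else 0

/-- The number of the cube of the cell `z`. -/
def bz {D : ℕ} (m : Prm) (z : Fin D → ℤ) : ℕ :=
  tab (2 ^ m.κ) D fun k => (co m.κ z k + m.o) / m.d

/-- The number of the cell `z` in its cube. -/
def cz {D : ℕ} (m : Prm) (z : Fin D → ℤ) : ℕ := tab m.d D fun k => (co m.κ z k + m.o) % m.d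

/-- The number `q` codes the state and the position of the configuration `C`. -/
structure GoodQ {D : ℕ} (m : Prm) (C : Conf D) (q : ℕ) : Prop where
  lt : q < 2 ^ m.sg
  wq : m.wq q = num C.q
  len : C.q.length ≤ m.S
  cq : ∀ k : Fin D, ((m.cq q k : ℕ) : ℤ) = C.h k + 2 ^ (m.κ - 1)

/-- The functions of `A` are computed correctly for words of length at most `3 S + 5`. -/
structure Fns {D : ℕ} (A : OneHead D) (m : Prm) : Prop where
  addr : Good A.addr m.eA m.S m.Λ m.β m.B (3 * m.S + 5)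
  next : Good A.next m.eN m.S m.Λ m.β m.B (3 * m.S + 5)
  write : Good A.write m.eW m.S m.Λ m.β m.B (3 * m.S + 5)

/-- GEO. Geometry of the grid. `dig_tab`, `tab_lt`, `tab_congr`, `tab_dig` in `LinSpace/Arith2.lean`.
(1) `cq q k < 2^κ` as a digit. (2) `mk'`: `wq` and the digits of `mk'` (`u < 2^(S+1)`). (3) Digits
`(u + o) / d` with `u < 2^κ`, `o < d` are `< 2^κ` (`(u + o) / d ≤ u` if `0 < u`, and `o / d = 0`); equal
`tab`s have equal digits; `(u + o) / d` and `(u + o) % d` determine `u`. -/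
structure GEO_stmt : Prop where
  blk : ∀ {D : ℕ} (m : Prm) (C : Conf D) (q : ℕ), m.D = D → GoodQ m C q →
    m.blk q = bz m C.h ∧ m.cel q = cz m C.h ∧ InBox m.κ C.h
  code : ∀ (m : Prm) (u : ℕ) (c : ℕ → ℕ), u < 2 ^ (m.S + 1) → (∀ k < m.D, c k < 2 ^ m.κ) →
    m.mk' u c < 2 ^ m.sg ∧ m.wq (m.mk' u c) = u ∧ ∀ k < m.D, m.cq (m.mk' u c) k = c k
  cq_lt : ∀ (m : Prm) (q k : ℕ), m.cq q k < 2 ^ m.κ
  cel_lt : ∀ (m : Prm) (q : ℕ), 0 < m.d → m.cel q < m.d ^ m.D
  inj : ∀ {D : ℕ} (m : Prm) (z z' : Fin D → ℤ), m.o < m.d → InBox m.κ z → InBox m.κ z' →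
    bz m z = bz m z' → cz m z = cz m z' → z = z'
  cross : ∀ {D : ℕ} (m : Prm) (z z' : Fin D → ℤ), m.o < m.d → InBox m.κ z → InBox m.κ z' →
    (bz m z ≠ bz m z' ↔ ∃ k < D, (co m.κ z k + m.o) / m.d ≠ (co m.κ z' k + m.o) / m.d)

/-- STEP (may assume GEO). One step. Write `u = inp C.q (C.M C.h)`. `adN q = num (A.addr C.q)` if this
word has length `≤ S` and `0` otherwise (`Good`), so `adr q = bval (A.addr C.q)`
(`num_eq_bval` in `Helper11/Ram/MCOR.lean`). `vq q v = num (C.M C.h)` if this word has length `≤ S` and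
`0` otherwise. If both are nonzero then `inpN q v = num u`: `sdN_num`, `letN_num` (`Mpc/Univ.lean`),
`lw (codeO o) = num (letW o)` (by cases), `catN_num`; `|u| ≤ (2 S + 1) + 2 + 2 + S`. So `nu`, `nw` are the
numbers of the new state and the new content, or `0` if these words are too long. For `nu ≠ 0`,
`pl nu k - mi nu k = mv (new state) k` (`letN_num`, `codeO o = 2` if and only if `o = some true`).
`viol = 0` if and only if for all `k < D`: `mi ≤ cq + pl` and `cq + pl - mi < 2^κ`, if and only if the new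
position is in the box. -/
def STEP_stmt : Prop := ∀ {D : ℕ} (A : OneHead D) (eA eN eW c : ℕ) (w y : List Bool) (m : Prm),
    Par A eA eN eW c w y m → m.o < m.d → Fns A m → ∀ (C : Conf D) (q v : ℕ), GoodQ m C q →
    m.vq q v = capN m.S (num (C.M C.h)) → C.q.head? ≠ some true →
    ((m.ok q v = 0 ∧ m.wq (m.sq q v) = 0 ∧ m.sv q v = v ∧ m.sq q v < 2 ^ m.sg) ∨
      (m.ok q v ≠ 0 ∧ GoodQ m (A.step w y C) (m.sq q v) ∧
        m.nw q v = num (A.write (A.inp w y C.q (C.M C.h))) ∧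
        (A.write (A.inp w y C.q (C.M C.h))).length ≤ m.S)) ∧
    ((A.addr C.q).length ≤ m.S → (C.M C.h).length ≤ m.S → (A.step w y C).q.length ≤ m.S →
      (A.write (A.inp w y C.q (C.M C.h))).length ≤ m.S → InBox m.κ (A.step w y C).h →
      m.ok q v ≠ 0)

/-- MCOR (may assume GEO, STEP). Let `eA, eN, eW` be the codes of `addr`, `next`, `write` (`fnN_spec` in
`Mpc/Words.lean`), `c` the sum of the constants; then `Par` implies `Fns`. Compare
`Pool/Agent/Helper11/Ram/MCOR.lean` (the same for random access machines).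
(1) Let `V` be true for a state number `q`, a content `v`, a configuration `C` if `GoodQ m C q` and
`dig (2^(S+1)) v (cz z) = capN S (num (C.M z))` for all cells `z` of the box with `bz z = blk q`. Then
`vq q v = capN S (num (C.M C.h))`, and after one step (`sq q v`, `sv q v`), if `ok q v ≠ 0`, the digits of
the content are right for `A.step w y C` for the same cells (only the cell `C.h` changes, `GEO.inj`,
`dig_tab`, `cz z < d ^ D`), while the cells outside the cube do not change.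
(2) Invariant of `nrec` in `run`, started with `V` for `C_τ = A.conf w y τ`, `b = blk q`: after `n` steps the
state part is failing (`wq = 0`), or there is a `j` such that the state part is good for `C_(τ+j)`, the
content part has the right digits for `C_(τ+j)` for the cells with `bz z = b`, and the cells of the box
with `bz z ≠ b` have in `C_(τ+j)` their contents of the time `τ`. Once `wq = 0` it remains `0`
(`fnN … 0 = 0`, so `adN = 0`, `ok = 0`); an accepting state is kept.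
(3) So for the machine on numbers: the state of `conf T` is failing, or there is a `τ` such that it is
good for `C_τ` and for all cells of the box `dig (2^(S+1)) (memory (bz z)) (cz z) = capN S (num (C_τ.M z))`.
At the start `τ = 0` (`num [] = 1`; `2^(κ-1) < 2^κ`). This gives the first claim. (The remainders modulo
`2^σ = 2^sg` and `2^a` change nothing: `sv < 2^((S+1) d^D) ≤ 2^a` or `sv = v`.)
(4) For the second claim let `r'` be the first accepting time, `r' ≤ r`. No failure occurs before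
since all lengths are `≤ S` and `|C_t.h k| ≤ t ≤ r < 2^(κ-1)`. The step of the machine on numbers,
started at a time `τ < r'`, executes steps until the head leaves the cube or `r'` is reached
(`Tc ≥ r`), so it ends at `r'` or at a time `τ' + 1 ≤ r'` where `τ'` is a crossing, `τ ≤ τ'`
(`GEO.cross`); the crossings of different steps are different, so the number of the steps which end
before `r'` is at most the number of the crossings (induction: after `T` steps the time `r'` is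
reached, or the time is `τ` and there are at least `T` crossings before `τ`). An accepting state is
kept. -/
def MCOR_stmt : Prop := ∀ {D : ℕ} (A : OneHead D), ∃ eA eN eW c : ℕ, ∀ (w y : List Bool) (m : Prm),
    Par A eA eN eW c w y m → m.o < m.d →
    (∀ T, accN (m.wq (m.conf T).1) = 1 → ∃ t, A.AcceptsAt w y t) ∧
    ∀ r T, A.Fits w y r m.S → A.AcceptsAt w y r → r ≤ m.Tc → r < 2 ^ (m.κ - 1) →
      ((range r).filter fun t => ∃ k < D, (co m.κ (A.conf w y t).h k + m.o) / m.d ≠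
        (co m.κ (A.conf w y (t + 1)).h k + m.o) / m.d).card < T →
      accN (m.wq (m.conf T).1) = 1

/-- OKS. All numbers are small. (`x % 2^σ < 2^σ`.) And if nothing is limited, the parameters are
those of `Par`. Here `0 < g = gR n`. `sS n S ≤ g - 1`, `d ≥ 1` because the term `j = 0` of `sd'` is `1`
(`sS + 1 ≤ g ≤ g * g`), and `(S + 1) * d ^ D ≤ g * g` because the terms are decreasing in `j`, so `d` is
the number of the `j` with `(S + 1) * (j + 1)^D ≤ g * g` and the last of them is `j = d - 1`. -/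
def OKS_stmt : Prop :=
  (∀ (m : Prm) (q v : ℕ), m.fA q < 2 ^ m.σ ∧ m.fN q v < 2 ^ m.σ ∧ m.fW q v < 2 ^ m.a ∧
    m.q0 < 2 ^ m.σ ∧ m.M0 < 2 ^ m.a) ∧
  (∀ n S D, 0 < D → 1 ≤ sd' n (sS n S) D ∧ (sS n S + 1) * sd' n (sS n S) D ^ D ≤ gR n * gR n ∧
    gR n * gR n < (sS n S + 1) * (sd' n (sS n S) D + 1) ^ D)

/-- MLS. The machines on numbers form a family computed in linear space. First the parameters
(`LS.gR` is in `Helper28/Ram/Main.lean`; `kap`, `dm`, `sS` are clear; in `sd'` and in `d ^ D` the powers by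
`LS.pow_of_le`: `(j + 1)^D ≤ (gR n ^ 2)^(ll n) ≤ CR x`, since `gR n ^ 2 ≤ 4 (n + 1)`,
`ll n ^ 2 ≤ 3 (n + 1)`), with bounds by `CR x = (x + 2)^8000` for `2^(S+1)`, `2^(κ D)`, `2^(gR n * gR n)`
(`gR n * gR n ≤ 4 (n + 1)`, `κ D ≤ 10 (ll n)^2 ≤ 30 (n + 1)`, and
`two_pow_log_le : 2 ^ (k * (log x + 1)) ≤ (x + 2) ^ (2 k)`). Then the functions one after the other
(compare `Pool/Agent/Helper59/Ram/MLS.lean`, where `LS` of `fnN`, `capN`, `sdN`, `catN`, `letN` is used), and
`run` by `LS.nrec` with the bound `2 ^ sg * (v + 2^(gR n * gR n) + 1)` (the content part of all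
intermediate values is `v` or smaller than `2^((S+1) d^D) ≤ 2^(gR n * gR n)`; the state part is
smaller than `2 ^ sg`). -/
def MLS_stmt : Prop := ∀ {α : Type} [Ctx α] {eA eN eW st x y S D o : α → ℕ},
    LS eA → LS eN → LS eW → LS st → LS x → LS y → LS S → LS D → LS o →
    LS (fun z => (prm (eA z) (eN z) (eW z) (st z) (x z) (y z) (S z) (D z) (o z)).σ) ∧
    LS (fun z => (prm (eA z) (eN z) (eW z) (st z) (x z) (y z) (S z) (D z) (o z)).d) ∧
    LS (fun z : α × ℕ =>
      (prm (eA z.1) (eN z.1) (eW z.1) (st z.1) (x z.1) (y z.1) (S z.1) (D z.1) (o z.1)).wq z.2) ∧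
    LS (fun z : α × ℕ =>
      (prm (eA z.1) (eN z.1) (eW z.1) (st z.1) (x z.1) (y z.1) (S z.1) (D z.1) (o z.1)).fA z.2) ∧
    LS (fun z : α × ℕ × ℕ =>
      (prm (eA z.1) (eN z.1) (eW z.1) (st z.1) (x z.1) (y z.1) (S z.1) (D z.1) (o z.1)).fN
        z.2.1 z.2.2) ∧
    LS (fun z : α × ℕ × ℕ =>
      (prm (eA z.1) (eN z.1) (eW z.1) (st z.1) (x z.1) (y z.1) (S z.1) (D z.1) (o z.1)).fW
        z.2.1 z.2.2) ∧
    LS (fun z => (prm (eA z) (eN z) (eW z) (st z) (x z) (y z) (S z) (D z) (o z)).q0) ∧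
    LS (fun z => (prm (eA z) (eN z) (eW z) (st z) (x z) (y z) (S z) (D z) (o z)).M0)

/-- PAR. The parameters for large `n`. Put `g = gR n ≥ (n / ll n)^(1/2)` (real square root,
`n < 2 ll n * (n / ll n)`…), `κ = kap n = O(log n)`, `σ = s + κ D + 1`, `d = sd' n s D`. (1) `D ≤ ll n`,
`c * (4 s + 8) ≤ LW n` etc. for large `n` as in `PAR4` of `Helper28/Ram/Goals.lean` (proved in
`Helper69/Ram/PAR.lean`), for all `s < g`. (2) From `s ≤ C (n+1)^(1/2) / (log n + 1)`:
`s + κ D + 1 ≤ g`. (3) From `s ≥ 1`: `r ≤ C (n + 1)^(5/2) ≤ (n + 2)^4 < 2^(κ - 1)`.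
(4) `D r < d * (g * (g * (g / σ)))`: by `OKS`, `g^2 < (s + 1) (d + 1)^D ≤ 2 s (2 d)^D`, so
`d ≥ (1/2) (g^2 / (2 s))^(1/D)`; `g / σ ≥ g / (2 σ)` (real division, since `σ ≤ g`) and
`σ ≤ s (2 + κ D)`; so `d g^2 (g / σ) ≥ c g^(3 + 2/D) / (s^(1 + 1/D) (2 + κ D))` with a constant `c > 0`
which depends on `D`, `g^(3+2/D) ≥ (n / ll n)^(3/2+1/D)`, and
`(ll n)^(3/2 + 1/D) (2 + κ D) = O((log n)^(7/2))`. Compare `PAR3` (`Helper28/Ram/Par3.lean`). -/
def PAR_stmt : Prop := ∀ (D : ℕ) (C : ℝ), 0 < D → ∀ᶠ n : ℕ in atTop, ∀ r s : ℕ, 1 ≤ s →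
    (r : ℝ) * (s : ℝ) ^ (1 + 1 / (D : ℝ)) ≤
      C * ((n : ℝ) + 1) ^ ((3 : ℝ) / 2 + 1 / (D : ℝ)) / ((Nat.log 2 n : ℝ) + 1) ^ 4 →
    (s : ℝ) ≤ C * ((n : ℝ) + 1) ^ ((1 : ℝ) / 2) / ((Nat.log 2 n : ℝ) + 1) →
    s + kap n * D + 1 ≤ gR n ∧ r ≤ (n + 2) ^ 4 ∧
      D * r < sd' n s D * (gR n * (gR n * (gR n / (s + kap n * D + 1))))

/-- PAR5. For large `n` the machines are as in `Par`. `LW n = n / ll n`, `gR n ≤ (n / ll n)^(1/2) + 1`;
compare `PAR4` of `Helper28/Ram/Goals.lean` (`Helper69/Ram/PAR.lean`). -/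
def PAR5_stmt : Prop := (∀ c D : ℕ, ∀ᶠ n : ℕ in atTop, D ≤ ll n ∧ ∀ S < gR n,
    c * (4 * S + 8) ≤ LW n ∧ c + LW n + 4 * S + 8 ≤ 2 ^ (2 * ll n) ∧
    ∀ x, Nat.log 2 x = n → 2 ^ (S + 1) ≤ CR x) ∧
  ∀ n, (n + 2) ^ 4 < 2 ^ (kap n - 1)

end Pool.Agent.Helper65.OH
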