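import Pool.Agent.Helper65.OH.Main
import Pool.Agent.Helper65.OH.GEO
import Pool.Agent.Helper78.Tok.Final
import Pool.Agent.Helper40.OH.CROSS
import Pool.Agent.Helper75.OH.STEP
import Pool.Agent.Helper53.OH.MCOR
import Pool.Agent.Helper90.OH.OKS
import Pool.Agent.Helper54.OH.MLS
import Pool.Agent.Helper64.OH.PAR
import Pool.Agent.Helper59.OH.PAR5

/-!
# All parts of the simulation of machines with one head
-/

namespace Pool.Agent.Helper65.OH

theorem parts : Parts where
  CROSS := Pool.Agent.Helper40.OH.CROSS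
  MCOR := Pool.Agent.Helper53.OH.MCOR GEO (Pool.Agent.Helper75.OH.STEP GEO)
  OKS := Pool.Agent.Helper90.OH.OKS
  MLS := Pool.Agent.Helper54.OH.MLS Pool.Agent.Helper90.OH.OKS
  PAR := Pool.Agent.Helper64.OH.PAR Pool.Agent.Helper90.OH.OKS
  PAR5 := Pool.Agent.Helper59.OH.PAR5

end Pool.Agent.Helper65.OH
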